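import Pool.Agent.Work.MP_4eca41_an.T.T3
import Pool.Agent.Work.MP_4eca41_an.Defs

/-!
# Block J: smooth maximum of three functions

STATEMENT FIXED (helper49).

PROOF.  There is `η > 0` with `u i z ≤ f z - η` for `z ∈ K j`, `j ≠ i` (six continuous positive functions `f - u i` on compact sets; empty sets give no condition; minimum of finitely many positive numbers).  `δ = η / 2`,
`g z = smax δ (smax δ (u0 z) (u1 z)) (u2 z)`.  Convex by `smax_convexOn` (twice), `C^2` by `smax_contDiff` composed (twice).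
`z ∈ K0`: `u0 z = f z`, `u1 z ≤ f z - η`: `|u0 z - u1 z| ≥ δ`, inner value `= max = f z` (`smax_eq`); `u2 z ≤ f z - η`: outer value `= f z`.  `z ∈ K1` the same.
`z ∈ K2`: inner value `≤ max (u0 z) (u1 z) + δ/4 ≤ f z - η + η/8` (`smax_le`), so the difference with `u2 z = f z` is at least `7 η / 8 ≥ δ` and the outer value is `max = f z`.
-/

set_option autoImplicit false

open Set

namespace Pool.Agent.MP_4eca41.Jf

/-- a continuous function below another one on a compact set is below it by a fixed amount -/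
private theorem cb_gap {f u : ℝ × ℝ → ℝ} (hf : Continuous f) (hu : Continuous u)
    {K : Set (ℝ × ℝ)} (hK : IsCompact K) (h : ∀ z ∈ K, u z < f z) :
    ∃ η : ℝ, 0 < η ∧ ∀ z ∈ K, u z ≤ f z - η := by
  rcases K.eq_empty_or_nonempty with he | hne
  · subst he
    exact ⟨1, one_pos, fun z hz => absurd hz (notMem_empty z)⟩
  · obtain ⟨z0, hz0, hmin⟩ := hK.exists_isMinOn hne (hf.sub hu).continuousOn
    refine ⟨f z0 - u z0, by have := h z0 hz0; linarith, fun z hz => ?_⟩
    have h1 : f z0 - u z0 ≤ f z - u z := hmin hz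
    linarith

theorem comb (f u0 u1 u2 : ℝ × ℝ → ℝ) (hf : Continuous f) (c0 : ConvexOn ℝ univ u0)
    (c1 : ConvexOn ℝ univ u1) (c2 : ConvexOn ℝ univ u2) (d0 : ContDiff ℝ 2 u0)
    (d1 : ContDiff ℝ 2 u1) (d2 : ContDiff ℝ 2 u2) (K0 K1 K2 : Set (ℝ × ℝ)) (hK0 : IsCompact K0)
    (hK1 : IsCompact K1) (hK2 : IsCompact K2) (e0 : ∀ z ∈ K0, u0 z = f z)
    (e1 : ∀ z ∈ K1, u1 z = f z) (e2 : ∀ z ∈ K2, u2 z = f z) (l0 : ∀ z ∈ K1 ∪ K2, u0 z < f z)
    (l1 : ∀ z ∈ K0 ∪ K2, u1 z < f z) (l2 : ∀ z ∈ K0 ∪ K1, u2 z < f z) :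
    ∃ g : ℝ × ℝ → ℝ, ConvexOn ℝ univ g ∧ ContDiff ℝ 2 g ∧ ∀ z ∈ K0 ∪ K1 ∪ K2, g z = f z := by
  obtain ⟨a, ha, ha'⟩ := cb_gap hf d0.continuous (hK1.union hK2) l0
  obtain ⟨b, hb, hb'⟩ := cb_gap hf d1.continuous (hK0.union hK2) l1
  obtain ⟨c, hc, hc'⟩ := cb_gap hf d2.continuous (hK0.union hK1) l2
  obtain ⟨η, hη, hηa, hηb, hηc⟩ : ∃ η : ℝ, 0 < η ∧ η ≤ a ∧ η ≤ b ∧ η ≤ c :=
    ⟨min a (min b c), lt_min ha (lt_min hb hc), min_le_left _ _,
      (min_le_right _ _).trans (min_le_left _ _), (min_le_right _ _).trans (min_le_right _ _)⟩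
  have hδ : 0 < η / 2 := by linarith
  refine ⟨fun z => smax (η / 2) (smax (η / 2) (u0 z) (u1 z)) (u2 z),
    smax_convexOn (η / 2) hδ univ _ _ (smax_convexOn (η / 2) hδ univ _ _ c0 c1) c2, ?_, ?_⟩
  · have h1 : ContDiff ℝ 2 fun z => smax (η / 2) (u0 z) (u1 z) :=
      (smax_contDiff (η / 2) hδ).comp (d0.prodMk d1)
    exact (smax_contDiff (η / 2) hδ).comp (h1.prodMk d2)
  · rintro z ((hz | hz) | hz)
    · have h0 := e0 z hz
      have h1 := hb' z (Or.inl hz)
      have h2 := hc' z (Or.inl hz)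
      have i1 : smax (η / 2) (u0 z) (u1 z) = f z := by
        rw [smax_eq (η / 2) hδ _ _ (le_abs.2 (Or.inl (by linarith))), max_eq_left (by linarith), h0]
      simp only [i1]
      rw [smax_eq (η / 2) hδ _ _ (le_abs.2 (Or.inl (by linarith))), max_eq_left (by linarith)]
    · have h0 := e1 z hz
      have h1 := ha' z (Or.inl hz)
      have h2 := hc' z (Or.inr hz)
      have i1 : smax (η / 2) (u0 z) (u1 z) = f z := by
        rw [smax_eq (η / 2) hδ _ _ (le_abs.2 (Or.inr (by linarith))), max_eq_right (by linarith), h0]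
      simp only [i1]
      rw [smax_eq (η / 2) hδ _ _ (le_abs.2 (Or.inl (by linarith))), max_eq_left (by linarith)]
    · have h0 := e2 z hz
      have h1 := ha' z (Or.inr hz)
      have h2 := hb' z (Or.inr hz)
      have h3 := smax_le (η / 2) hδ (u0 z) (u1 z)
      have h4 : max (u0 z) (u1 z) ≤ f z - η := max_le (by linarith) (by linarith)
      have i2 : smax (η / 2) (smax (η / 2) (u0 z) (u1 z)) (u2 z) = f z := by
        rw [smax_eq (η / 2) hδ _ _ (le_abs.2 (Or.inr (by linarith))), max_eq_right (by linarith), h0]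
      exact i2

end Pool.Agent.MP_4eca41.Jf
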