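import Pool.Agent.Work.MP_4eca41_an.Defs

/-!
# Block J: the tangent functions at points of rank zero are strictly below `f` at points of rank two

STATEMENT FIXED (helper49).

PROOF.  Let `T x = f y + J.p y * (x.1 - y.1) + J.s y * (x.2 - y.2)`.  (1) `T ≤ f`: for `x` fixed and `t ∈ (0, 1]`: convexity gives `f (y + t • (x - y)) ≤ (1 - t) f y + t f x`, and the expansion at `y` (`J.a y = J.b y = J.c y = 0`) gives
`f (y + t • (x - y)) ≥ f y + t (T x - f y) - ε t^2 sq (x - y)` for small `t`; divide by `t` and let `t → 0`.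
(2) Suppose `f z ≤ T z`, so `f z = T z`.  `z ≠ y` because `J.a z > 0 = J.a y`.  For `t ∈ [0, 1]` let `x = z + t • (y - z)`: `T x ≤ f x ≤ (1 - t) f z + t f y = (1 - t) T z + t T y = T x`.  So `f (z + t • w) = f z + t (T y - T z)` for `w = y - z`, `t ∈ [0, 1]`.
The expansion at `z` in direction `t • w`: `|t (T y - T z) - t (J.p z w1 + J.s z w2) - t^2 H / 2| ≤ ε t^2 sq w` for small `t`, `H = J.a z w1^2 + 2 J.b z w1 w2 + J.c z w2^2`.  Dividing by `t` and `t → 0`: `T y - T z = J.p z w1 + J.s z w2`; then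
`|H| / 2 ≤ ε sq w` for every `ε`, so `H = 0`.  But `J.a z * H = (J.a z w1 + J.b z w2)^2 + (J.a z J.c z - J.b z^2) w2^2 > 0` for `w ≠ 0`.  Contradiction.
-/

set_option autoImplicit false

open Set

namespace Pool.Agent.MP_4eca41.Jf

/-- the plane at a point of rank zero is below the function -/
private theorem st_sub {f : ℝ × ℝ → ℝ} (hf : ConvexOn ℝ univ f) {y : ℝ × ℝ} {p s : ℝ}
    (h : ∀ ε : ℝ, 0 < ε → ∃ δ : ℝ, 0 < δ ∧ ∀ v : ℝ × ℝ, sq v ≤ δ ^ 2 →
      |f (y + v) - f y - (p * v.1 + s * v.2)| ≤ ε * sq v) (v : ℝ × ℝ) :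
    f y + p * (v.1 - y.1) + s * (v.2 - y.2) ≤ f v := by
  by_contra hcon
  push Not at hcon
  set g := f y + p * (v.1 - y.1) + s * (v.2 - y.2) - f v with hg
  have hgp : 0 < g := by linarith
  obtain ⟨δ, hδ, h1⟩ := h 1 one_pos
  set u : ℝ × ℝ := v - y with hu
  set m := sq u with hm
  have hm0 : 0 ≤ m := by rw [hm, sq]; positivity
  obtain ⟨t, ht, ht1, ht2⟩ : ∃ t : ℝ, 0 < t ∧ t ≤ min 1 (δ / (m + 1)) ∧
      t ≤ g / (2 * (m + 1)) :=
    ⟨min (min 1 (δ / (m + 1))) (g / (2 * (m + 1))), by positivity, min_le_left _ _,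
      min_le_right _ _⟩
  have ht3 : t ≤ 1 := ht1.trans (min_le_left _ _)
  have ht4 : t ≤ δ / (m + 1) := ht1.trans (min_le_right _ _)
  rw [le_div_iff₀ (by positivity)] at ht4 ht2
  have e1 : sq (t • u) = t ^ 2 * m := by
    simp only [hm, sq, Prod.smul_fst, Prod.smul_snd, smul_eq_mul]; ring
  have h2 := h1 (t • u) (by
    rw [e1]
    have h3 : t ^ 2 * m ≤ (t * (m + 1)) ^ 2 := by
      have : m ≤ (m + 1) ^ 2 := by nlinarith
      calc t ^ 2 * m ≤ t ^ 2 * (m + 1) ^ 2 := by gcongr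
        _ = (t * (m + 1)) ^ 2 := by ring
    exact h3.trans (pow_le_pow_left₀ (by positivity) ht4 2))
  rw [e1, abs_le] at h2
  have h3 := hf.2 (mem_univ y) (mem_univ v) (show 0 ≤ 1 - t by linarith) ht.le (by ring)
  have e2 : (1 - t) • y + t • v = y + t • u := by
    rw [hu, sub_smul, one_smul, smul_sub]; abel
  rw [e2] at h3
  simp only [smul_eq_mul] at h3
  have e3 : (t • u).1 = t * (v.1 - y.1) := by simp [hu]
  have e4 : (t • u).2 = t * (v.2 - y.2) := by simp [hu]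
  have h4 := h2.1
  rw [e3, e4] at h4
  have h5 : t * g ≤ t ^ 2 * m := by
    rw [hg]
    nlinarith
  have h6 : g ≤ t * m := by
    have : t * g ≤ t * (t * m) := by nlinarith
    exact le_of_mul_le_mul_left this ht
  nlinarith

theorem strict (f : ℝ × ℝ → ℝ) (hf : ConvexOn ℝ univ f) (J : Jets) (K0 K2 : Set (ℝ × ℝ))
    (hE0 : Exp2 f K0 J) (hE2 : Exp2 f K2 J) (h0 : ∀ z ∈ K0, J.a z = 0 ∧ J.b z = 0 ∧ J.c z = 0)
    (h2 : ∀ z ∈ K2, 0 < J.a z ∧ J.b z ^ 2 < J.a z * J.c z) :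
    ∀ z ∈ K2, ∀ y ∈ K0, f y + J.p y * (z.1 - y.1) + J.s y * (z.2 - y.2) < f z := by
  intro z hz y hy
  obtain ⟨ha0, hb0, hc0⟩ := h0 y hy
  obtain ⟨ha, hd⟩ := h2 z hz
  have hsub := st_sub hf (y := y) (p := J.p y) (s := J.s y) (by
    intro ε hε
    obtain ⟨δ, hδ, h1⟩ := hE0.ex ε hε
    refine ⟨δ, hδ, fun v hv => ?_⟩
    have h3 := h1 y hy v hv
    rw [Jets.q, ha0, hb0, hc0] at h3
    have e1 : J.p y * v.1 + J.s y * v.2 + (0 * v.1 ^ 2 + 2 * 0 * v.1 * v.2 + 0 * v.2 ^ 2) / 2 =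
        J.p y * v.1 + J.s y * v.2 := by ring
    rw [e1] at h3
    exact h3)
  by_contra hcon
  push Not at hcon
  have hyz : f z = f y + J.p y * (z.1 - y.1) + J.s y * (z.2 - y.2) :=
    le_antisymm hcon (hsub z)
  set w : ℝ × ℝ := y - z with hw
  have hw1 : w.1 = y.1 - z.1 := rfl
  have hw2 : w.2 = y.2 - z.2 := rfl
  have hne : w ≠ 0 := by
    intro h
    have : y = z := sub_eq_zero.1 h
    rw [← this, ha0] at ha
    exact lt_irrefl _ ha
  set H := J.a z * w.1 ^ 2 + 2 * J.b z * w.1 * w.2 + J.c z * w.2 ^ 2 with hH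
  have hHp : 0 < H := by
    have e1 : J.a z * H = (J.a z * w.1 + J.b z * w.2) ^ 2 +
        (J.a z * J.c z - J.b z ^ 2) * w.2 ^ 2 := by rw [hH]; ring
    have h3 : 0 < J.a z * H := by
      rw [e1]
      by_cases h4 : w.2 = 0
      · have h5 : w.1 ≠ 0 := fun h5 => hne (Prod.ext h5 h4)
        rw [h4]
        have : 0 < (J.a z * w.1) ^ 2 := by positivity
        nlinarith
      · have h5 : 0 < w.2 ^ 2 := by positivity
        have h6 : 0 < (J.a z * J.c z - J.b z ^ 2) * w.2 ^ 2 := mul_pos (by linarith) h5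
        have h7 := sq_nonneg (J.a z * w.1 + J.b z * w.2)
        linarith
    exact (mul_pos_iff_of_pos_left ha).1 h3
  set m := sq w with hm
  have hm0 : 0 ≤ m := by rw [hm, sq]; positivity
  -- on the segment
  have hseg : ∀ t : ℝ, 0 ≤ t → t ≤ 1 → f (z + t • w) = f z + t * (f y - f z) := by
    intro t ht0 ht1
    apply le_antisymm
    · have h3 := hf.2 (mem_univ z) (mem_univ y) (show 0 ≤ 1 - t by linarith) ht0 (by ring)
      have e2 : (1 - t) • z + t • y = z + t • w := by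
        rw [hw, sub_smul, one_smul, smul_sub]; abel
      rw [e2] at h3
      simp only [smul_eq_mul] at h3
      linarith
    · have h3 := hsub (z + t • w)
      have e3 : (z + t • w).1 = z.1 + t * (y.1 - z.1) := by simp [hw]
      have e4 : (z + t • w).2 = z.2 + t * (y.2 - z.2) := by simp [hw]
      rw [e3, e4] at h3
      refine le_trans (le_of_eq ?_) h3
      rw [hyz]
      ring
  obtain ⟨δ, hδ, h1⟩ := hE2.ex (H / (12 * (m + 1))) (by positivity)
  obtain ⟨t, ht, ht1, ht2⟩ : ∃ t : ℝ, 0 < t ∧ t ≤ 1 ∧ t ≤ δ / (m + 1) :=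
    ⟨min 1 (δ / (m + 1)), by positivity, min_le_left _ _, min_le_right _ _⟩
  rw [le_div_iff₀ (by positivity)] at ht2
  have hexp : ∀ r : ℝ, 0 ≤ r → r ≤ t → |r * (f y - f z) - (r * (J.p z * w.1 + J.s z * w.2) +
      r ^ 2 * H / 2)| ≤ H / (12 * (m + 1)) * (r ^ 2 * m) := by
    intro r hr0 hr1
    have e1 : sq (r • w) = r ^ 2 * m := by
      simp only [hm, sq, Prod.smul_fst, Prod.smul_snd, smul_eq_mul]; ring
    have h3 := h1 z hz (r • w) (by
      rw [e1]
      have h4 : m ≤ (m + 1) ^ 2 := by nlinarith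
      have h5 : r * (m + 1) ≤ δ := le_trans (by gcongr) ht2
      calc r ^ 2 * m ≤ r ^ 2 * (m + 1) ^ 2 := by gcongr
        _ = (r * (m + 1)) ^ 2 := by ring
        _ ≤ δ ^ 2 := pow_le_pow_left₀ (by positivity) h5 2)
    rw [e1, hseg r hr0 (hr1.trans ht1), Jets.q] at h3
    have e2 : f z + r * (f y - f z) - f z - (J.p z * (r • w).1 + J.s z * (r • w).2 +
        (J.a z * (r • w).1 ^ 2 + 2 * J.b z * (r • w).1 * (r • w).2 +
          J.c z * (r • w).2 ^ 2) / 2) =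
        r * (f y - f z) - (r * (J.p z * w.1 + J.s z * w.2) + r ^ 2 * H / 2) := by
      simp only [Prod.smul_fst, Prod.smul_snd, smul_eq_mul, hH]
      ring
    rw [e2] at h3
    exact h3
  have h3 := abs_le.1 (hexp t ht.le le_rfl)
  have h4 := abs_le.1 (hexp (t / 2) (by positivity) (by linarith))
  have h5 : H / (12 * (m + 1)) * m ≤ H / 12 := by
    rw [div_mul_eq_mul_div, div_le_div_iff₀ (by positivity) (by positivity)]
    nlinarith
  have h6 : H / (12 * (m + 1)) * (t ^ 2 * m) ≤ t ^ 2 * (H / 12) := by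
    calc H / (12 * (m + 1)) * (t ^ 2 * m) = t ^ 2 * (H / (12 * (m + 1)) * m) := by ring
      _ ≤ t ^ 2 * (H / 12) := by gcongr
  have h7 : H / (12 * (m + 1)) * ((t / 2) ^ 2 * m) ≤ t ^ 2 * (H / 48) := by
    calc H / (12 * (m + 1)) * ((t / 2) ^ 2 * m) =
        t ^ 2 / 4 * (H / (12 * (m + 1)) * m) := by ring
      _ ≤ t ^ 2 / 4 * (H / 12) := by gcongr
      _ = t ^ 2 * (H / 48) := by ring
  have h8 : 0 < t ^ 2 * H := by positivity
  nlinarith [h3.1, h4.2]

end Pool.Agent.MP_4eca41.Jf
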